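import Mathlib
import Pool.Agent.H538R4.SP.Defs
import Pool.Agent.H541R2.Lower

/-!
# Path systems on programs with slowly moving heads: definitions and statements
-/

set_option autoImplicit false

namespace Pool.Agent.H822R6.SH

open Pool.Agent.H538R4.SP Pool.Agent.H541R2

/-- The position of a bit of a path system in the input word: the records one after another, in each
record the five names one after another. -/
def pos {M ℓ : ℕ} : SPBits M ℓ ≃ Fin (M * (5 * (ℓ + 1))) :=
  (Equiv.prodCongr (Equiv.refl (Fin M)) finProdFinEquiv).trans finProdFinEquiv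

/-- A nondeterministic program with `k` heads on an input word of `N` bits and memory states `Q`.  The
successors of a configuration (memory state and positions of the heads) may depend in any way on the
configuration and on the `k` bits under the heads; each head moves by at most one position. -/
structure Prog (N k : ℕ) (Q : Type) where
  start : Q × (Fin k → Fin N)
  next : Q × (Fin k → Fin N) → (Fin k → Bool) → Set (Q × (Fin k → Fin N))
  acc : Set (Q × (Fin k → Fin N))
  slow : ∀ c v, ∀ d ∈ next c v, ∀ i, (d.2 i : ℕ) ≤ c.2 i + 1 ∧ (c.2 i : ℕ) ≤ d.2 i + 1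

variable {N k : ℕ} {Q : Type}

/-- `d` is a successor of `c` on the input `w`. -/
def Prog.Step (P : Prog N k Q) (w : Fin N → Bool) (c d : Q × (Fin k → Fin N)) : Prop :=
  d ∈ P.next c (fun i => w (c.2 i))

/-- `ρ` is, up to time `T`, an accepting computation on `w`. -/
def Prog.AccRun (P : Prog N k Q) (w : Fin N → Bool) (T : ℕ) (ρ : ℕ → Q × (Fin k → Fin N)) : Prop :=
  ρ 0 = P.start ∧ (∀ t < T, P.Step w (ρ t) (ρ (t + 1))) ∧ ρ T ∈ P.acc

/-- `P` accepts `w`. -/
def Prog.Accepts (P : Prog N k Q) (w : Fin N → Bool) : Prop := ∃ T ρ, P.AccRun w T ρ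

/-! ## The general lower bound -/

/-- Off block `r` (the positions `p` with `p / D = r`) the word does not depend on row `r`. -/
def Local (D : ℕ) {g n : ℕ} (W : (Fin g → Fin n → Bool) → Fin N → Bool) : Prop :=
  ∀ (r : Fin g) (b b' : Fin g → Fin n → Bool), (∀ j, j ≠ r → b j = b' j) →
    ∀ p : Fin N, (p : ℕ) / D ≠ r → W b p = W b' p

/-- A step from a configuration whose heads are outside block `r`. -/
def RStep (P : Prog N k Q) (D : ℕ) (w : Fin N → Bool) (r : ℕ) (c d : Q × (Fin k → Fin N)) : Prop :=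
  (∀ i, (c.2 i : ℕ) / D ≠ r) ∧ P.Step w c d

/-- A phase with free block `r`. -/
def Phase (P : Prog N k Q) (D : ℕ) (w : Fin N → Bool) (r : ℕ) (c d : Q × (Fin k → Fin N)) : Prop :=
  Relation.ReflTransGen (RStep P D w r) c d

/-- Acceptance within `R` phases. -/
def AccIn (P : Prog N k Q) (D : ℕ) {g n : ℕ} (W : (Fin g → Fin n → Bool) → Fin N → Bool) :
    ℕ → Q × (Fin k → Fin N) → (Fin g → Fin n → Bool) → Prop
  | 0, c, _ => c ∈ P.acc
  | (R + 1), c, b => ∃ r : Fin g, ∃ d, Phase P D (W b) r c d ∧ AccIn P D W R d b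

open Classical in
def S_count : Prop := ∀ (N k g n D : ℕ) (Q : Type) [Fintype Q] (P : Prog N k Q)
  (W : (Fin (g + 1) → Fin n → Bool) → Fin N → Bool), Local D W → ∀ (σ : ℝ), |σ| = 1 →
  ∀ (R : ℕ) (c : Q × (Fin k → Fin N)), (∀ b, AccIn P D W R c b → gsign Finset.univ b = σ) →
    ((Finset.univ.filter (fun b => AccIn P D W R c b)).card : ℝ) ≤
      ((g + 1 : ℝ) * ((Fintype.card Q : ℝ) * (N : ℝ) ^ k)) ^ R *
        ((2 ^ n : ℝ) ^ (g + 1) * (mu g) ^ n)

def S_runs : Prop := ∀ (N k n D : ℕ) (Q : Type) (P : Prog N k Q)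
  (W : (Fin (3 * k + 1) → Fin n → Bool) → Fin N → Bool), 1 ≤ D →
  ∀ (b : Fin (3 * k + 1) → Fin n → Bool) (T : ℕ) (ρ : ℕ → Q × (Fin k → Fin N)),
    P.AccRun (W b) T ρ → ∀ R : ℕ, T / D + 1 ≤ R → AccIn P D W R P.start b

def S_sound : Prop := ∀ (N k g n D R : ℕ) (Q : Type) (P : Prog N k Q)
  (W : (Fin g → Fin n → Bool) → Fin N → Bool) (b : Fin g → Fin n → Bool),
    AccIn P D W R P.start b → P.Accepts (W b)

def S_gen : Prop := ∀ k : ℕ, ∃ C : ℝ, 0 < C ∧ ∃ n₀ : ℕ, ∀ (N n D : ℕ), n₀ ≤ n → 1 ≤ D →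
  ∀ (Q : Type) [Fintype Q] (P : Prog N k Q)
    (W : (Fin (3 * k + 1) → Fin n → Bool) → Fin N → Bool), Local D W →
    (∀ b, P.Accepts (W b) ↔ gsign Finset.univ b = -1) →
    ∃ b, gsign Finset.univ b = -1 ∧ ∀ (T : ℕ) (ρ : ℕ → Q × (Fin k → Fin N)),
      P.AccRun (W b) T ρ →
      (n : ℝ) ≤ C * ((T : ℝ) / D + 1) * (Real.log (Fintype.card Q) + Real.log N + 1)

/-! ## The path systems -/

/-- Nodes: `top`; a literal for each bit `(j, i)` (row `j`, column `i`) and value; `con i j`: the first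
`j` rows have a one in column `i`; `neg i`: some row has a zero in column `i`; `par i b`: among the
first `i` columns the number of all-one columns is `b` modulo 2. -/
inductive Nd (g n : ℕ) : Type
  | top : Nd g n
  | lit (j : Fin g) (i : Fin n) (b : Bool) : Nd g n
  | con (i : Fin n) (j : Fin (g + 1)) : Nd g n
  | neg (i : Fin n) : Nd g n
  | par (i : Fin (n + 1)) (b : Bool) : Nd g n
  deriving DecidableEq, Fintype

/-- The triples. -/
inductive Rl (g n : ℕ) : Type
  | var (j : Fin g) (i : Fin n) : Rl g n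
  | con0 (i : Fin n) : Rl g n
  | conS (i : Fin n) (j : Fin g) : Rl g n
  | negR (i : Fin n) (j : Fin g) : Rl g n
  | par0 : Rl g n
  | parN (i : Fin n) (b : Bool) : Rl g n
  | parY (i : Fin n) (b : Bool) : Rl g n
  deriving DecidableEq, Fintype

/-- The triple `(head, y, z)` of a rule, for the matrix `x`. -/
def tri {g n : ℕ} (x : Fin g → Fin n → Bool) : Rl g n → Nd g n × Nd g n × Nd g n
  | .var j i => (.lit j i (x j i), .top, .top)
  | .con0 i => (.con i 0, .top, .top)
  | .conS i j => (.con i j.succ, .con i j.castSucc, .lit j i true)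
  | .negR i j => (.neg i, .lit j i false, .top)
  | .par0 => (.par 0 false, .top, .top)
  | .parN i b => (.par i.succ b, .par i.castSucc b, .neg i)
  | .parY i b => (.par i.succ (!b), .par i.castSucc b, .con i (Fin.last g))

/-- The admissible nodes. -/
inductive AdmN {g n : ℕ} (x : Fin g → Fin n → Bool) : Nd g n → Prop
  | top : AdmN x .top
  | step (r : Rl g n) : AdmN x (tri x r).2.1 → AdmN x (tri x r).2.2 → AdmN x (tri x r).1

def S_sem : Prop := ∀ (g n : ℕ) (x : Fin g → Fin n → Bool),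
  AdmN x (.par (Fin.last n) true) ↔ gsign Finset.univ x = -1

def S_names : Prop := ∀ (g n ℓ : ℕ), 3 + n * (3 * g + 4) ≤ 2 ^ ℓ →
  ∃ nm : Nd g n → Fin (ℓ + 1) → Bool, Function.Injective nm

/-- Good placement of the rules in the records: the variable rules of row `j` are the records
`j * m + i`. -/
def GoodPlace {g n : ℕ} (M m : ℕ) (f : Fin M → Rl g n) : Prop :=
  Function.Surjective f ∧ ∀ (c : Fin M) (j : Fin g) (i : Fin n), f c = .var j i → (c : ℕ) = j * m + i

def S_place : Prop := ∀ (g n m M : ℕ), 1 ≤ g → 1 ≤ n → 9 * n ≤ m → g * m ≤ M →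
  ∃ f : Fin M → Rl g n, GoodPlace M m f

/-- The five nodes of a record which carries rule `r`. -/
def recd {g n : ℕ} (x : Fin g → Fin n → Bool) (r : Rl g n) (s : Fin 5) : Nd g n :=
  if s = 0 then (tri x r).1 else if s = 1 then (tri x r).2.1 else if s = 2 then (tri x r).2.2
  else if s = 3 then .par (Fin.last n) true else .top

/-- The path system of the matrix `x`. -/
def sys {g n M ℓ : ℕ} (nm : Nd g n → Fin (ℓ + 1) → Bool) (f : Fin M → Rl g n)
    (x : Fin g → Fin n → Bool) : SPBits M ℓ → Bool :=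
  fun q => nm (recd x (f q.1) q.2.1) q.2.2

def S_trans : Prop := ∀ (g n M ℓ : ℕ) (nm : Nd g n → Fin (ℓ + 1) → Bool) (f : Fin M → Rl g n),
  Function.Injective nm → Function.Surjective f → ∀ x : Fin g → Fin n → Bool,
    (Solvable (sys nm f x) ↔ AdmN x (.par (Fin.last n) true))

def S_local : Prop := ∀ (g n m M ℓ : ℕ) (nm : Nd g n → Fin (ℓ + 1) → Bool) (f : Fin M → Rl g n),
  n ≤ m → GoodPlace M m f →
    Local (5 * (ℓ + 1) * m) (fun x => sys nm f x ∘ (pos (M := M) (ℓ := ℓ)).symm)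

/-- The final statement. -/
def S_final : Prop := ∀ k : ℕ, ∃ D : ℕ, 0 < D ∧ ∀ (M ℓ : ℕ), D ≤ M → M ≤ 2 ^ ℓ →
  ∀ (Q : Type) [Fintype Q] (P : Prog (M * (5 * (ℓ + 1))) k Q),
    (∀ w : SPBits M ℓ → Bool, P.Accepts (w ∘ pos.symm) ↔ Solvable w) →
    ∃ w : SPBits M ℓ → Bool, Solvable w ∧ ∀ (T : ℕ) (ρ : ℕ → Q × (Fin k → Fin (M * (5 * (ℓ + 1))))),
      P.AccRun (w ∘ pos.symm) T ρ →
      (M : ℝ) ^ 2 * (ℓ + 1) ≤ D * ((T : ℝ) + M * (ℓ + 1)) *
        (Real.log (Fintype.card Q) + Real.log (M * (ℓ + 1)))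

end Pool.Agent.H822R6.SH
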