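import Pool.Agent.H822R6.SH.Defs

/-!
# Semantics of the path systems (task SEM)
-/

set_option autoImplicit false

namespace Pool.Agent.H822R6.SH.TSEM

open Pool.Agent.H822R6.SH Pool.Agent.H541R2

variable {g n : ℕ}

open Classical in
/-- number of all-one columns among the first `m` -/
noncomputable def cnt (x : Fin g → Fin n → Bool) (m : ℕ) : ℕ :=
  (Finset.univ.filter (fun i : Fin n => (i : ℕ) < m ∧ ∀ j, x j i = true)).card

theorem cnt_zero (x : Fin g → Fin n → Bool) : cnt x 0 = 0 := by
  unfold cnt
  rw [Finset.card_eq_zero, Finset.filter_eq_empty_iff]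
  intro i _ h
  omega

theorem cnt_succ_of (x : Fin g → Fin n → Bool) (i : Fin n) (h : ∀ j, x j i = true) :
    cnt x (i + 1) = cnt x i + 1 := by
  classical
  unfold cnt
  rw [← Finset.card_insert_of_notMem (s := Finset.univ.filter
    (fun i' : Fin n => (i' : ℕ) < i ∧ ∀ j, x j i' = true)) (a := i)]
  · congr 1
    ext i'
    simp only [Finset.mem_filter, Finset.mem_univ, true_and, Finset.mem_insert]
    constructor
    · rintro ⟨h1, h2⟩
      by_cases h3 : i' = i
      · left; exact h3
      · right
        refine ⟨?_, h2⟩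
        have : (i' : ℕ) ≠ i := fun h => h3 (Fin.ext h)
        omega
    · rintro (rfl | ⟨h1, h2⟩)
      · exact ⟨by omega, h⟩
      · exact ⟨by omega, h2⟩
  · simp

theorem cnt_succ_of_not (x : Fin g → Fin n → Bool) (i : Fin n) (h : ¬ ∀ j, x j i = true) :
    cnt x (i + 1) = cnt x i := by
  classical
  unfold cnt
  congr 1
  ext i'
  simp only [Finset.mem_filter, Finset.mem_univ, true_and]
  constructor
  · rintro ⟨h1, h2⟩
    refine ⟨?_, h2⟩
    have : (i' : ℕ) ≠ i := by
      intro h3
      apply h
      rw [← Fin.ext h3]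
      exact h2
    omega
  · rintro ⟨h1, h2⟩
    exact ⟨by omega, h2⟩

open Classical in
/-- truth of a node -/
def Good (x : Fin g → Fin n → Bool) : Nd g n → Prop
  | .top => True
  | .lit j i b => x j i = b
  | .con i j => ∀ j' : Fin g, (j' : ℕ) < j → x j' i = true
  | .neg i => ∃ j, x j i = false
  | .par i b => (Odd (cnt x i) ↔ b = true)

theorem sound (x : Fin g → Fin n → Bool) (v : Nd g n) (h : AdmN x v) : Good x v := by
  induction h with
  | top => trivial
  | step r h1 h2 ih1 ih2 =>
    cases r with
    | var j i => exact rfl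
    | con0 i =>
      intro j' hj'
      simp at hj'
    | conS i j =>
      intro j' hj'
      have hj2 : (j' : ℕ) < j + 1 := by simpa using hj'
      by_cases h3 : j' = j
      · rw [h3]; exact ih2
      · have h4 : (j' : ℕ) ≠ j := fun h => h3 (Fin.ext h)
        have h5 : (j' : ℕ) < (j.castSucc : Fin (g + 1)) := by
          rw [Fin.val_castSucc]; omega
        exact ih1 j' h5
    | negR i j => exact ⟨j, ih1⟩
    | par0 =>
      show Odd (cnt x ((0 : Fin (n + 1)) : ℕ)) ↔ false = true
      have : ((0 : Fin (n + 1)) : ℕ) = 0 := rfl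
      rw [this, cnt_zero]
      simp
    | parN i b =>
      obtain ⟨j, hj⟩ := ih2
      have h3 : ¬ ∀ j, x j i = true := by
        intro h
        rw [h j] at hj
        exact Bool.noConfusion hj
      show Odd (cnt x ((i.succ : Fin (n + 1)) : ℕ)) ↔ b = true
      have ih1' : Odd (cnt x ((i.castSucc : Fin (n + 1)) : ℕ)) ↔ b = true := ih1
      rw [Fin.val_castSucc] at ih1'
      rw [Fin.val_succ, cnt_succ_of_not x i h3]
      exact ih1'
    | parY i b =>
      have h3 : ∀ j, x j i = true := fun j => ih2 j (by simp)
      show Odd (cnt x ((i.succ : Fin (n + 1)) : ℕ)) ↔ (!b) = true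
      have ih1' : Odd (cnt x ((i.castSucc : Fin (n + 1)) : ℕ)) ↔ b = true := ih1
      rw [Fin.val_castSucc] at ih1'
      rw [Fin.val_succ, cnt_succ_of x i h3, Nat.odd_add_one, ih1']
      cases b <;> simp

theorem adm_lit (x : Fin g → Fin n → Bool) (j : Fin g) (i : Fin n) :
    AdmN x (.lit j i (x j i)) :=
  AdmN.step (.var j i) AdmN.top AdmN.top

theorem adm_con (x : Fin g → Fin n → Bool) (i : Fin n) (h : ∀ j, x j i = true)
    (j : Fin (g + 1)) : AdmN x (.con i j) := by
  induction j using Fin.induction with
  | zero => exact AdmN.step (.con0 i) AdmN.top AdmN.top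
  | succ j ih =>
    refine AdmN.step (.conS i j) ih ?_
    have := adm_lit x j i
    rw [h j] at this
    exact this

theorem adm_neg (x : Fin g → Fin n → Bool) (i : Fin n) (h : ¬ ∀ j, x j i = true) :
    AdmN x (.neg i) := by
  push Not at h
  obtain ⟨j, hj⟩ := h
  have hj' : x j i = false := by
    cases hx : x j i with
    | false => rfl
    | true => exact absurd hx hj
  have := adm_lit x j i
  rw [hj'] at this
  exact AdmN.step (.negR i j) this AdmN.top

open Classical in
theorem adm_par (x : Fin g → Fin n → Bool) (i : Fin (n + 1)) :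
    AdmN x (.par i (decide (Odd (cnt x i)))) := by
  induction i using Fin.induction with
  | zero =>
    have h1 : decide (Odd (cnt x ((0 : Fin (n + 1)) : ℕ))) = false := by
      have : ((0 : Fin (n + 1)) : ℕ) = 0 := rfl
      rw [this, cnt_zero]
      simp
    rw [h1]
    exact AdmN.step .par0 AdmN.top AdmN.top
  | succ i ih =>
    by_cases h : ∀ j, x j i = true
    · have h1 : decide (Odd (cnt x ((i.succ : Fin (n + 1)) : ℕ))) =
          !(decide (Odd (cnt x ((i.castSucc : Fin (n + 1)) : ℕ)))) := by
        rw [Fin.val_castSucc, Fin.val_succ, cnt_succ_of x i h, ← decide_not, decide_eq_decide,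
          Nat.odd_add_one]
      rw [h1]
      exact AdmN.step (.parY i _) ih (adm_con x i h (Fin.last g))
    · have h1 : decide (Odd (cnt x ((i.succ : Fin (n + 1)) : ℕ))) =
          decide (Odd (cnt x ((i.castSucc : Fin (n + 1)) : ℕ))) := by
        rw [Fin.val_castSucc, Fin.val_succ, cnt_succ_of_not x i h]
      rw [h1]
      exact AdmN.step (.parN i _) ih (adm_neg x i h)

theorem gsign_eq (x : Fin g → Fin n → Bool) : gsign Finset.univ x = (-1) ^ cnt x n := by
  classical
  unfold gsign cnt
  rw [Finset.prod_ite, Finset.prod_const, Finset.prod_const_one, mul_one]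
  congr 2
  ext i
  simp [i.2]

theorem SEM : S_sem := by
  intro g n x
  classical
  rw [gsign_eq, neg_one_pow_eq_neg_one_iff_odd (by norm_num)]
  constructor
  · intro h
    have h1 := sound x _ h
    have h2 : Odd (cnt x ((Fin.last n : Fin (n + 1)) : ℕ)) ↔ true = true := h1
    rw [Fin.val_last] at h2
    exact h2.2 rfl
  · intro h
    have h1 := adm_par x (Fin.last n)
    rw [Fin.val_last] at h1
    rw [decide_eq_true h] at h1
    exact h1

end Pool.Agent.H822R6.SH.TSEM
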